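import Pool.Agent.NPC.CookLevin3

/-!
# SAT and 3SAT are NP-hard
-/

namespace Pool.Agent.NPC

/-- Literals: `(true, v)` is `v`, `(false, v)` is its negation. -/
abbrev Lit (V : Type) : Type := Bool × V

/-- Satisfiability of conjunctions of clauses with three literals. -/
def Sat3V (V : Type) (φ : List (Lit V × Lit V × Lit V)) : Prop :=
  ∃ τ : V → Bool, ∀ c ∈ φ, τ c.1.2 = c.1.1 ∨ τ c.2.1.2 = c.2.1.1 ∨ τ c.2.2.2 = c.2.2.1

/-- Satisfiability of formulas in conjunctive normal form. -/
def SAT (φ : List (List (Bool × ℕ))) : Prop := SatV ℕ φ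

/-- 3-satisfiability. -/
def SAT3 (φ : List (Lit ℕ × Lit ℕ × Lit ℕ)) : Prop := Sat3V ℕ φ

/-- In each clause the three variables are different. -/
def Distinct3 {V : Type} (φ : List (Lit V × Lit V × Lit V)) : Prop :=
  ∀ c ∈ φ, c.1.2 ≠ c.2.1.2 ∧ c.1.2 ≠ c.2.2.2 ∧ c.2.1.2 ≠ c.2.2.2

section Index

variable {V : Type} [TEnc V]

open Classical in
/-- The position of the first occurrence of `v` in `l`. -/
noncomputable def index (l : List V) (v : V) : ℕ :=
  match (l.zipIdx.filter (fun p => decide (p.1 = v))).head? with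
  | none => 0
  | some p => p.2

omit [TEnc V] in
theorem getElem?_index {l : List V} {v : V} (h : v ∈ l) : l[index l v]? = some v := by
  classical
  unfold index
  cases hh : (l.zipIdx.filter (fun p => decide (p.1 = v))).head? with
  | none =>
    exfalso
    rw [List.head?_eq_none_iff, List.filter_eq_nil_iff] at hh
    obtain ⟨i, hi, hiv⟩ := List.getElem_of_mem h
    have := hh (v, i) (by
      rw [List.mem_zipIdx_iff_getElem?]
      simp only
      rw [List.getElem?_eq_getElem hi, hiv])
    simp at this
  | some p =>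
    have hp : p ∈ l.zipIdx.filter (fun p => decide (p.1 = v)) := List.mem_of_head? hh
    rw [List.mem_filter, List.mem_zipIdx_iff_getElem?] at hp
    have := of_decide_eq_true hp.2
    simp only
    rw [hp.1, this]

omit [TEnc V] in
theorem index_inj {l : List V} {v w : V} (hv : v ∈ l) (hw : w ∈ l) (h : index l v = index l w) :
    v = w := by
  have h1 := getElem?_index hv
  have h2 := getElem?_index hw
  rw [h, h2] at h1
  exact (Option.some.inj h1).symm

theorem Poly.index {α : Type} [TEnc α] {l : α → List V} {v : α → V} (hl : Poly l) (hv : Poly v) :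
    Poly (fun a => index (l a) (v a)) := by
  classical
  refine (Poly.optCases (g := fun _ => 0) (h := fun _ p => p.2)
    (Poly.head? (Poly.filter (p := fun a (p : V × ℕ) => decide (p.1 = v a)) (Poly.zipIdx hl)
      (Poly.decide_eq (Poly.fst (Poly.snd Poly.id)) (hv.comp (Poly.fst Poly.id)))))
    (Poly.const 0) (Poly.snd (Poly.snd Poly.id))).congr fun a => ?_
  unfold NPC.index
  cases (List.filter (fun p : V × ℕ => decide (p.1 = v a)) (l a).zipIdx).head? <;> rfl

end Index

section Rename

variable {V : Type} [TEnc V]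

/-- All variables of a 3-CNF. -/
def vars3 (φ : List (Lit V × Lit V × Lit V)) : List V :=
  φ.flatMap (fun c => [c.1.2, c.2.1.2, c.2.2.2])

/-- Renaming of the variables of a 3-CNF by numbers. -/
noncomputable def ren3 (φ : List (Lit V × Lit V × Lit V)) : List (Lit ℕ × Lit ℕ × Lit ℕ) :=
  φ.map (fun c => ((c.1.1, index (vars3 φ) c.1.2), (c.2.1.1, index (vars3 φ) c.2.1.2),
    (c.2.2.1, index (vars3 φ) c.2.2.2)))

omit [TEnc V] in
theorem mem_vars3 {φ : List (Lit V × Lit V × Lit V)} {c} (hc : c ∈ φ) :
    c.1.2 ∈ vars3 φ ∧ c.2.1.2 ∈ vars3 φ ∧ c.2.2.2 ∈ vars3 φ := by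
  simp only [vars3, List.mem_flatMap]
  exact ⟨⟨c, hc, by simp⟩, ⟨c, hc, by simp⟩, ⟨c, hc, by simp⟩⟩

omit [TEnc V] in
theorem ren3_sat (φ : List (Lit V × Lit V × Lit V)) : Sat3V V φ ↔ SAT3 (ren3 φ) := by
  classical
  constructor
  · rintro ⟨τ, hτ⟩
    refine ⟨fun n => match (vars3 φ)[n]? with
      | none => false
      | some v => τ v, ?_⟩
    intro c hc
    unfold ren3 at hc
    rw [List.mem_map] at hc
    obtain ⟨d, hd, rfl⟩ := hc
    obtain ⟨h1, h2, h3⟩ := mem_vars3 hd
    simp only [getElem?_index h1, getElem?_index h2, getElem?_index h3]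
    exact hτ d hd
  · rintro ⟨τ, hτ⟩
    refine ⟨fun v => τ (index (vars3 φ) v), ?_⟩
    intro c hc
    exact hτ _ (List.mem_map.2 ⟨c, hc, rfl⟩)

omit [TEnc V] in
theorem ren3_distinct {φ : List (Lit V × Lit V × Lit V)} (h : Distinct3 φ) :
    Distinct3 (ren3 φ) := by
  intro c hc
  unfold ren3 at hc
  rw [List.mem_map] at hc
  obtain ⟨d, hd, rfl⟩ := hc
  obtain ⟨h1, h2, h3⟩ := mem_vars3 hd
  obtain ⟨g1, g2, g3⟩ := h d hd
  exact ⟨fun h => g1 (index_inj h1 h2 h), fun h => g2 (index_inj h1 h3 h),
    fun h => g3 (index_inj h2 h3 h)⟩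

theorem ren3_poly : Poly (ren3 (V := V)) := by
  have hv : Poly (vars3 (V := V)) :=
    Poly.flatMap (F := fun _ (c : Lit V × Lit V × Lit V) => [c.1.2, c.2.1.2, c.2.2.2]) Poly.id
      (CL.pList3 (Poly.snd (Poly.fst (Poly.snd Poly.id)))
        (Poly.snd (Poly.fst (Poly.snd (Poly.snd Poly.id))))
        (Poly.snd (Poly.snd (Poly.snd (Poly.snd Poly.id)))))
  have hv' : Poly (fun x : List (Lit V × Lit V × Lit V) × (Lit V × Lit V × Lit V) =>
      vars3 x.1) := hv.comp (Poly.fst Poly.id)
  refine Poly.map (F := fun φ (c : Lit V × Lit V × Lit V) => ((c.1.1, index (vars3 φ) c.1.2),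
    (c.2.1.1, index (vars3 φ) c.2.1.2), (c.2.2.1, index (vars3 φ) c.2.2.2))) Poly.id ?_
  refine Poly.pair (Poly.pair (Poly.fst (Poly.fst (Poly.snd Poly.id)))
    (Poly.index hv' (Poly.snd (Poly.fst (Poly.snd Poly.id))))) (Poly.pair
    (Poly.pair (Poly.fst (Poly.fst (Poly.snd (Poly.snd Poly.id))))
      (Poly.index hv' (Poly.snd (Poly.fst (Poly.snd (Poly.snd Poly.id))))))
    (Poly.pair (Poly.fst (Poly.snd (Poly.snd (Poly.snd Poly.id))))
      (Poly.index hv' (Poly.snd (Poly.snd (Poly.snd (Poly.snd Poly.id)))))))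

end Rename

section Split

variable {V : Type} [TEnc V]

/-- Variables of the split formula: old variables; for each clause number `i` and position `j`
an auxiliary variable; and two dummies. -/
abbrev SV (V : Type) : Type := V ⊕ ((ℕ × ℕ) ⊕ Bool)

/-- The auxiliary variable: some literal of clause `i` from position `j` on is true. -/
def aux (i j : ℕ) : SV V := Sum.inr (Sum.inl (i, j))

/-- The dummy variables. -/
def dum (b : Bool) : SV V := Sum.inr (Sum.inr b)

/-- A unit clause, padded with dummies. -/
def unit3 (l : Lit (SV V)) : List (Lit (SV V) × Lit (SV V) × Lit (SV V)) :=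
  [(l, (false, dum false), (false, dum true)), (l, (false, dum false), (true, dum true)),
    (l, (true, dum false), (false, dum true)), (l, (true, dum false), (true, dum true))]

/-- The 3-clauses for the clause `c` with number `i`. -/
def splitClause (i : ℕ) (c : List (Bool × V)) : List (Lit (SV V) × Lit (SV V) × Lit (SV V)) :=
  unit3 (true, aux i 0) ++ (unit3 (false, aux i c.length) ++
    c.zipIdx.map (fun p => ((false, aux i p.2), (p.1.1, Sum.inl p.1.2), (true, aux i (p.2 + 1)))))

/-- Splitting all clauses. -/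
def split3 (φ : List (List (Bool × V))) : List (Lit (SV V) × Lit (SV V) × Lit (SV V)) :=
  φ.zipIdx.flatMap (fun p => splitClause p.2 p.1)

omit [TEnc V] in
theorem unit3_holds {τ : SV V → Bool} {l : Lit (SV V)} :
    (∀ c ∈ unit3 l, τ c.1.2 = c.1.1 ∨ τ c.2.1.2 = c.2.1.1 ∨ τ c.2.2.2 = c.2.2.1) ↔
      τ l.2 = l.1 := by
  constructor
  · intro h
    have h1 := h _ (show (l, (false, dum false), (false, dum true)) ∈ unit3 l by simp [unit3])
    have h2 := h _ (show (l, (false, dum false), (true, dum true)) ∈ unit3 l by simp [unit3])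
    have h3 := h _ (show (l, (true, dum false), (false, dum true)) ∈ unit3 l by simp [unit3])
    have h4 := h _ (show (l, (true, dum false), (true, dum true)) ∈ unit3 l by simp [unit3])
    simp only at h1 h2 h3 h4
    by_contra hne
    simp only [hne, false_or] at h1 h2 h3 h4
    revert h1 h2 h3 h4
    generalize τ (dum false) = a
    generalize τ (dum true) = b
    cases a <;> cases b <;> simp
  · intro h c hc
    simp only [unit3, List.mem_cons, List.not_mem_nil, or_false] at hc
    rcases hc with rfl | rfl | rfl | rfl <;> exact Or.inl h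

omit [TEnc V] in
theorem split3_sat (φ : List (List (Bool × V))) : SatV V φ ↔ Sat3V (SV V) (split3 φ) := by
  constructor
  · rintro ⟨τ, hτ⟩
    let σ : SV V → Bool := fun s => match s with
      | Sum.inl v => τ v
      | Sum.inr (Sum.inl (i, j)) => match φ[i]? with
        | none => false
        | some c => (c.drop j).any (fun l => decide (τ l.2 = l.1))
      | Sum.inr (Sum.inr _) => false
    refine ⟨σ, ?_⟩
    intro d hd
    rw [split3, List.mem_flatMap] at hd
    obtain ⟨⟨c, i⟩, hci, hd⟩ := hd
    rw [List.mem_zipIdx_iff_getElem?] at hci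
    simp only at hci hd
    have haux : ∀ j, σ (aux i j) = (c.drop j).any (fun l => decide (τ l.2 = l.1)) := by
      intro j
      simp only [σ, aux, hci]
    rw [splitClause, List.mem_append, List.mem_append] at hd
    rcases hd with hd | hd | hd
    · refine unit3_holds.2 ?_ d hd
      rw [haux]
      simp only [List.drop_zero, List.any_eq_true, decide_eq_true_eq]
      exact hτ c (List.mem_of_getElem? hci)
    · refine unit3_holds.2 ?_ d hd
      rw [haux]
      simp
    · rw [List.mem_map] at hd
      obtain ⟨⟨l, j⟩, hlj, rfl⟩ := hd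
      rw [List.mem_zipIdx_iff_getElem?] at hlj
      simp only at hlj ⊢
      rw [haux, haux]
      have : c.drop j = l :: c.drop (j + 1) := by
        have hj : j < c.length := by
          by_contra hj
          rw [List.getElem?_eq_none (by omega)] at hlj
          simp at hlj
        rw [List.getElem?_eq_getElem hj] at hlj
        rw [List.drop_eq_getElem_cons hj, Option.some.inj hlj]
      rw [this, List.any_cons]
      cases h1 : (c.drop (j + 1)).any (fun l => decide (τ l.2 = l.1))
      · by_cases h2 : τ l.2 = l.1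
        · right; left; exact h2
        · left; simp [h2]
      · right; right; rfl
  · rintro ⟨σ, hσ⟩
    refine ⟨fun v => σ (Sum.inl v), ?_⟩
    intro cl hc
    obtain ⟨i, hi, hic⟩ := List.getElem_of_mem hc
    have hmem : ∀ d ∈ splitClause i cl, d ∈ split3 φ := by
      intro d hd
      rw [split3, List.mem_flatMap]
      refine ⟨(cl, i), ?_, hd⟩
      rw [List.mem_zipIdx_iff_getElem?]
      simp only
      rw [List.getElem?_eq_getElem hi, hic]
    have h0 : σ (aux i 0) = true := unit3_holds.1 (fun d hd => hσ d (hmem d (by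
      rw [splitClause]; exact List.mem_append_left _ hd)))
    have hN : σ (aux i cl.length) = false := unit3_holds.1 (fun d hd => hσ d (hmem d (by
      rw [splitClause]; exact List.mem_append_right _ (List.mem_append_left _ hd))))
    by_contra hne
    push Not at hne
    have key : ∀ j ≤ cl.length, σ (aux i j) = true := by
      intro j
      induction j with
      | zero => intro _; exact h0
      | succ j ih =>
        intro hj
        have h1 := ih (by omega)
        have hj' : j < cl.length := by omega
        have h2 := hσ ((false, aux i j), (cl[j].1, Sum.inl cl[j].2), (true, aux i (j + 1)))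
          (hmem _ (by
            rw [splitClause]
            refine List.mem_append_right _ (List.mem_append_right _ ?_)
            rw [List.mem_map]
            refine ⟨(cl[j], j), ?_, rfl⟩
            rw [List.mem_zipIdx_iff_getElem?]
            simp only
            rw [List.getElem?_eq_getElem hj']))
        simp only at h2
        rcases h2 with h2 | h2 | h2
        · rw [h1] at h2; simp at h2
        · exact absurd h2 (hne _ (List.getElem_mem hj'))
        · exact h2
    have := key cl.length le_rfl
    rw [hN] at this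
    simp at this

omit [TEnc V] in
theorem split3_distinct (φ : List (List (Bool × V))) : Distinct3 (split3 φ) := by
  intro d hd
  rw [split3, List.mem_flatMap] at hd
  obtain ⟨⟨c, i⟩, _, hd⟩ := hd
  rw [splitClause, List.mem_append, List.mem_append] at hd
  rcases hd with hd | hd | hd
  · simp only [unit3, List.mem_cons, List.not_mem_nil, or_false] at hd
    rcases hd with rfl | rfl | rfl | rfl <;> simp [aux, dum]
  · simp only [unit3, List.mem_cons, List.not_mem_nil, or_false] at hd
    rcases hd with rfl | rfl | rfl | rfl <;> simp [aux, dum]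
  · rw [List.mem_map] at hd
    obtain ⟨⟨l, j⟩, _, rfl⟩ := hd
    simp [aux]

theorem split3_poly : Poly (split3 (V := V)) := by
  have hunit : ∀ {α : Type} [TEnc α] {l : α → Lit (SV V)}, Poly l →
      Poly (fun a => unit3 (l a)) := by
    intro α _ l hl
    exact Poly.cons (Poly.pair hl (Poly.const _)) (Poly.cons (Poly.pair hl (Poly.const _))
      (Poly.cons (Poly.pair hl (Poly.const _)) (Poly.cons (Poly.pair hl (Poly.const _))
        (Poly.const []))))
  have haux : ∀ {α : Type} [TEnc α] {i j : α → ℕ}, Poly i → Poly j →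
      Poly (fun a => (aux (i a) (j a) : SV V)) := by
    intro α _ i j hi hj
    exact Poly.inr (Poly.inl (Poly.pair hi hj))
  refine Poly.flatMap (F := fun _ (p : List (Bool × V) × ℕ) => splitClause p.2 p.1)
    (Poly.zipIdx Poly.id) ?_
  have f1 : Poly (fun x : List (List (Bool × V)) × (List (Bool × V) × ℕ) => x.2.2) :=
    Poly.snd (Poly.snd Poly.id)
  have f2 : Poly (fun x : List (List (Bool × V)) × (List (Bool × V) × ℕ) => x.2.1) :=
    Poly.fst (Poly.snd Poly.id)
  refine Poly.append (hunit (Poly.pair (Poly.const true) (haux f1 (Poly.const 0))))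
    (Poly.append (hunit (Poly.pair (Poly.const false) (haux f1 (Poly.length f2)))) ?_)
  refine Poly.map (F := fun (x : List (List (Bool × V)) × (List (Bool × V) × ℕ))
    (p : (Bool × V) × ℕ) => (((false, aux x.2.2 p.2), (p.1.1, Sum.inl p.1.2),
      (true, aux x.2.2 (p.2 + 1))) : Lit (SV V) × Lit (SV V) × Lit (SV V))) (Poly.zipIdx f2) ?_
  have g1 : Poly (fun y : (List (List (Bool × V)) × (List (Bool × V) × ℕ)) × ((Bool × V) × ℕ) =>
      y.1.2.2) := f1.comp (Poly.fst Poly.id)
  have g2 : Poly (fun y : (List (List (Bool × V)) × (List (Bool × V) × ℕ)) × ((Bool × V) × ℕ) =>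
      y.2.2) := Poly.snd (Poly.snd Poly.id)
  have g3 : Poly (fun y : (List (List (Bool × V)) × (List (Bool × V) × ℕ)) × ((Bool × V) × ℕ) =>
      y.2.1) := Poly.fst (Poly.snd Poly.id)
  exact Poly.pair (Poly.pair (Poly.const false) (haux g1 g2)) (Poly.pair
    (Poly.pair (Poly.fst g3) (Poly.inl (Poly.snd g3)))
    (Poly.pair (Poly.const true) (haux g1 (Poly.succ g2))))

end Split

/-- 3SAT with three different variables per clause is hard. -/
theorem hardPr_SAT3 : HardPr Distinct3 SAT3 := by
  intro L hL
  obtain ⟨V, hV, f, hf, hfL⟩ := cookLevin_aux hL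
  refine ⟨fun x => ren3 (split3 (f x)), PC.comp (g := fun φ => ren3 (split3 φ))
      (Poly.comp (g := ren3 (V := SV V)) (f := split3 (V := V)) ren3_poly split3_poly) hf,
    fun x => ren3_distinct (split3_distinct _), fun x => ?_⟩
  rw [hfL x, split3_sat, ren3_sat]

theorem hardI_SAT3 : HardI SAT3 := hardPr_SAT3.toHardI

/-- The formula in list form. -/
def toLists {V : Type} (φ : List (Lit V × Lit V × Lit V)) : List (List (Bool × V)) :=
  φ.map (fun c => [c.1, c.2.1, c.2.2])

theorem toLists_sat {V : Type} (φ : List (Lit V × Lit V × Lit V)) :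
    Sat3V V φ ↔ SatV V (toLists φ) := by
  unfold Sat3V SatV toLists
  constructor
  · rintro ⟨τ, hτ⟩
    refine ⟨τ, ?_⟩
    intro c hc
    rw [List.mem_map] at hc
    obtain ⟨d, hd, rfl⟩ := hc
    rcases hτ d hd with h | h | h
    · exact ⟨d.1, by simp, h⟩
    · exact ⟨d.2.1, by simp, h⟩
    · exact ⟨d.2.2, by simp, h⟩
  · rintro ⟨τ, hτ⟩
    refine ⟨τ, ?_⟩
    intro d hd
    obtain ⟨l, hl, hl'⟩ := hτ _ (List.mem_map.2 ⟨d, hd, rfl⟩)
    simp only [List.mem_cons, List.not_mem_nil, or_false] at hl
    rcases hl with rfl | rfl | rfl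
    · exact Or.inl hl'
    · exact Or.inr (Or.inl hl')
    · exact Or.inr (Or.inr hl')

theorem toLists_poly {V : Type} [TEnc V] : Poly (toLists (V := V)) :=
  Poly.map (F := fun _ (c : Lit V × Lit V × Lit V) => [c.1, c.2.1, c.2.2]) Poly.id
    (CL.pList3 (Poly.fst (Poly.snd Poly.id)) (Poly.fst (Poly.snd (Poly.snd Poly.id)))
      (Poly.snd (Poly.snd (Poly.snd Poly.id))))

theorem hardI_SAT : HardI SAT := hardI_SAT3.trans toLists_poly toLists_sat

/-- The Cook-Levin theorem: satisfiability is NP-hard. -/
theorem npHard_SAT : NPHardP SAT := hardI_SAT.toNPHardP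

/-- 3-satisfiability is NP-hard. -/
theorem npHard_SAT3 : NPHardP SAT3 := hardI_SAT3.toNPHardP

end Pool.Agent.NPC
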