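import Pool.Agent.NPC.Sat

/-!
# Variants of 3SAT
-/

namespace Pool.Agent.NPC

/-- All variable numbers are less than three times the number of clauses. -/
def Bounded3 (φ : List (Lit ℕ × Lit ℕ × Lit ℕ)) : Prop :=
  ∀ c ∈ φ, c.1.2 < 3 * φ.length ∧ c.2.1.2 < 3 * φ.length ∧ c.2.2.2 < 3 * φ.length

theorem index_lt {V : Type} {l : List V} {v : V} (h : v ∈ l) : index l v < l.length := by
  have := getElem?_index h
  by_contra hlt
  rw [List.getElem?_eq_none (by omega)] at this
  simp at this

theorem vars3_length {V : Type} (φ : List (Lit V × Lit V × Lit V)) :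
    (vars3 φ).length = 3 * φ.length := by
  induction φ with
  | nil => rfl
  | cons c φ ih =>
    unfold vars3 at *
    rw [List.flatMap_cons, List.length_append, ih]
    simp
    omega

theorem ren3_bounded {V : Type} (φ : List (Lit V × Lit V × Lit V)) : Bounded3 (ren3 φ) := by
  intro c hc
  have hlen : (ren3 φ).length = φ.length := by simp [ren3]
  rw [hlen]
  unfold ren3 at hc
  rw [List.mem_map] at hc
  obtain ⟨d, hd, rfl⟩ := hc
  obtain ⟨h1, h2, h3⟩ := mem_vars3 hd
  rw [← vars3_length]
  exact ⟨index_lt h1, index_lt h2, index_lt h3⟩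

/-- 3SAT with three different variables per clause, with variables numbered below `3 m` for `m`
clauses, and with at least one clause, is hard. -/
theorem hardPr_SAT3b :
    HardPr (fun φ => Distinct3 φ ∧ Bounded3 φ ∧ φ ≠ []) SAT3 := by
  intro L hL
  obtain ⟨V, hV, f, hf, hfL⟩ := cookLevin_aux hL
  let g : List (List (Bool × V)) → List (Lit (SV V) × Lit (SV V) × Lit (SV V)) :=
    fun φ => split3 φ ++ [((true, dum false), (true, dum true), (true, aux 0 0))]
  have hg : Poly g := Poly.append split3_poly (Poly.const _)
  have hg1 : ∀ φ, Sat3V (SV V) (split3 φ) ↔ Sat3V (SV V) (g φ) := by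
    intro φ
    constructor
    · rintro ⟨τ, hτ⟩
      cases φ with
      | nil =>
        refine ⟨fun _ => true, ?_⟩
        intro c hc
        simp only [g, split3, List.zipIdx_nil, List.flatMap_nil, List.nil_append,
          List.mem_singleton] at hc
        subst hc
        exact Or.inl rfl
      | cons cl φ =>
        refine ⟨τ, ?_⟩
        intro c hc
        simp only [g, List.mem_append, List.mem_singleton] at hc
        rcases hc with hc | rfl
        · exact hτ c hc
        · right; right
          refine unit3_holds.1 (fun d hd => hτ d ?_)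
          rw [split3, List.mem_flatMap]
          refine ⟨(cl, 0), by simp, ?_⟩
          rw [splitClause]
          exact List.mem_append_left _ hd
    · rintro ⟨τ, hτ⟩
      exact ⟨τ, fun c hc => hτ c (List.mem_append_left _ hc)⟩
  have hg2 : ∀ φ, Distinct3 (g φ) := by
    intro φ c hc
    simp only [g, List.mem_append, List.mem_singleton] at hc
    rcases hc with hc | rfl
    · exact split3_distinct φ c hc
    · simp [aux, dum]
  refine ⟨fun x => ren3 (g (f x)), PC.comp (g := fun φ => ren3 (g φ))
      (Poly.comp (g := ren3 (V := SV V)) (f := g) ren3_poly hg) hf,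
    fun x => ⟨ren3_distinct (hg2 _), ren3_bounded _, ?_⟩, fun x => ?_⟩
  · simp [ren3, g]
  · rw [hfL x, split3_sat, hg1, ren3_sat]

end Pool.Agent.NPC
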